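import Pool.Agent.Lib.MP_ff9d8c_ag.WideB

set_option autoImplicit false

namespace Pool.Agent.Lib.MP_ff9d8c_ag.Variants.WiderFormats

open Pool.Agent.Lib.MP_ff9d8c_ag

/-- For a general tensor `T` of any format `(p, q, r)` beyond the boundary (`r ≥ p + q`): `T` lies
in the span of its singular vector triples; the dimension of the span is at most
`C(p+1,2) C(q+1,2) - C(p,2) - C(q,2)`, with equality for `r ≥ pq - ⌊p/2⌋⌊q/2⌋`; the span is the
critical space for `r ≤ ⌊p/2⌋⌊q/2⌋`; and the critical space has the expected dimension for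
`r ≤ pq`. -/
theorem result (p q r : ℕ) (hp : 1 ≤ p) (hq : 1 ≤ q) (hr : p + q ≤ r) :
    ∃ P : MvPolynomial (Fin p × Fin q × Fin r) ℂ, P ≠ 0 ∧
      ∀ T : Tensor p q r, MvPolynomial.eval T P ≠ 0 →
        T ∈ spanZ T ∧
        Module.finrank ℂ (spanZ T) + p.choose 2 + q.choose 2 ≤
          (p + 1).choose 2 * (q + 1).choose 2 ∧
        (p * q ≤ r + (p / 2) * (q / 2) → Module.finrank ℂ (spanZ T) + p.choose 2 + q.choose 2 =
          (p + 1).choose 2 * (q + 1).choose 2) ∧
        (r ≤ (p / 2) * (q / 2) → spanZ T = critSpace T) ∧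
        (r ≤ p * q → Module.finrank ℂ (critSpace T) + p.choose 2 + q.choose 2 + r.choose 2 =
          p * q * r) :=
  (generic_wide hp hq hr).mono fun T h => ⟨h.1, h.2.1, h.2.2.1,
    fun h1 => Submodule.eq_of_le_of_finrank_eq (spanZ_le T) (h.2.2.2.1 h1), h.2.2.2.2⟩

end Pool.Agent.Lib.MP_ff9d8c_ag.Variants.WiderFormats
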